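import Mathlib
import Pool.Agent.Q130.SJ.Array

/-!
# The chromatic numbers of `J_±(n, 2, -1)` and `K_±(n, 2, -1)` differ for infinitely many `n`

For `n = C(2s, s)` with `s ≥ 6` the graph `J_±(n, 2, -1)` is `(2s+1)`-colourable and the graph
`K_±(n, 2, -1)` is not.
-/

set_option autoImplicit false

namespace Pool.Agent.Results.MP_6c9e22_co.Doubling

open Finset Pool.Agent.Q130.SJ

/-- the vectors of `{-1, 0, 1}^n` with exactly `k` nonzero coordinates -/
def V (n k : ℕ) : Type :=
  {v : Fin n → ℤ // (∀ i, v i = -1 ∨ v i = 0 ∨ v i = 1) ∧ (univ.filter fun i => v i ≠ 0).card = k}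

/-- the standard scalar product -/
def dot {n : ℕ} (u v : Fin n → ℤ) : ℤ := ∑ i, u i * v i

lemma dot_comm {n : ℕ} (u v : Fin n → ℤ) : dot u v = dot v u := by
  unfold dot; exact sum_congr rfl fun i _ => mul_comm _ _

/-- the graph `J_±(n, k, t)` -/
def J (n k : ℕ) (t : ℤ) : SimpleGraph (V n k) where
  Adj u v := u ≠ v ∧ dot u.1 v.1 = t
  symm := ⟨fun u v h => ⟨h.1.symm, by rw [dot_comm]; exact h.2⟩⟩
  loopless := ⟨fun u h => h.1 rfl⟩

/-- the graph `K_±(n, k, t)` -/
def K (n k : ℕ) (t : ℤ) : SimpleGraph (V n k) where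
  Adj u v := u ≠ v ∧ dot u.1 v.1 ≤ t
  symm := ⟨fun u v h => ⟨h.1.symm, by rw [dot_comm]; exact h.2⟩⟩
  loopless := ⟨fun u h => h.1 rfl⟩

section basic

variable {n : ℕ}

/-- the two nonzero coordinates of a vector of `V n 2` -/
lemma exists_supp (v : V n 2) : ∃ i j, i ≠ j ∧ v.1 i ≠ 0 ∧ v.1 j ≠ 0 ∧
    ∀ x, x ≠ i → x ≠ j → v.1 x = 0 := by
  obtain ⟨i, j, hij, h⟩ := card_eq_two.1 v.2.2
  have hi : i ∈ univ.filter fun i => v.1 i ≠ 0 := by rw [h]; simp
  have hj : j ∈ univ.filter fun i => v.1 i ≠ 0 := by rw [h]; simp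
  refine ⟨i, j, hij, (mem_filter.1 hi).2, (mem_filter.1 hj).2, fun x hxi hxj => ?_⟩
  by_contra hx
  have : x ∈ univ.filter fun i => v.1 i ≠ 0 := mem_filter.2 ⟨mem_univ _, hx⟩
  rw [h] at this
  simp [hxi, hxj] at this

/-- a vector of `V n 2` has no third nonzero coordinate -/
lemma zero_of_supp (v : V n 2) {i j : Fin n} (hij : i ≠ j) (hi : v.1 i ≠ 0) (hj : v.1 j ≠ 0) {x : Fin n}
    (hxi : x ≠ i) (hxj : x ≠ j) : v.1 x = 0 := by
  obtain ⟨p, q, hpq, hp, hq, h⟩ := exists_supp v
  have h1 : i = p ∨ i = q := by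
    by_contra hc; push Not at hc; exact hi (h i hc.1 hc.2)
  have h2 : j = p ∨ j = q := by
    by_contra hc; push Not at hc; exact hj (h j hc.1 hc.2)
  apply h x
  · rcases h1 with rfl | rfl
    · exact hxi
    · rcases h2 with rfl | rfl
      · exact hxj
      · exact absurd rfl hij
  · rcases h1 with rfl | rfl
    · rcases h2 with rfl | rfl
      · exact absurd rfl hij
      · exact hxj
    · exact hxi

/-- for a coordinate in the support there is a second one -/
lemma exists_other (v : V n 2) {i : Fin n} (_hi : v.1 i ≠ 0) : ∃ j, i ≠ j ∧ v.1 j ≠ 0 := by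
  obtain ⟨p, q, hpq, hp, hq, h⟩ := exists_supp v
  by_cases hip : i = p
  · exact ⟨q, by rw [hip]; exact hpq, hq⟩
  · exact ⟨p, hip, hp⟩

lemma dot_eq (u v : V n 2) {i j : Fin n} (hij : i ≠ j) (hi : v.1 i ≠ 0) (hj : v.1 j ≠ 0) :
    dot u.1 v.1 = u.1 i * v.1 i + u.1 j * v.1 j := by
  unfold dot
  rw [← sum_pair hij (f := fun x => u.1 x * v.1 x)]
  symm
  apply sum_subset (subset_univ _)
  intro x _ hx
  have hx' : x ≠ i ∧ x ≠ j := by simpa using hx
  rw [zero_of_supp v hij hi hj hx'.1 hx'.2, mul_zero]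

/-- the sign `±1` -/
def sg (a : Bool) : ℤ := if a then 1 else -1

lemma sg_ne_zero (a : Bool) : sg a ≠ 0 := by cases a <;> simp [sg]

lemma eq_sg (v : V n 2) {i : Fin n} (hi : v.1 i ≠ 0) : ∃ a, v.1 i = sg a := by
  rcases v.2.1 i with h | h | h
  · exact ⟨false, by rw [h]; rfl⟩
  · exact absurd h hi
  · exact ⟨true, by rw [h]; rfl⟩

/-- the vector with the signs `a`, `b` in the coordinates `i`, `j` -/
def vec (i j : Fin n) (hij : i ≠ j) (a b : Bool) : V n 2 :=
  ⟨fun x => if x = i then sg a else if x = j then sg b else 0, by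
    constructor
    · intro x
      by_cases h1 : x = i
      · simp only [h1, if_true]; cases a <;> simp [sg]
      · by_cases h2 : x = j
        · simp only [h2, if_neg hij.symm, if_true]; cases b <;> simp [sg]
        · simp [h1, h2]
    · rw [card_eq_two]
      refine ⟨i, j, hij, ?_⟩
      ext x
      simp only [mem_filter, mem_univ, true_and, mem_insert, mem_singleton]
      by_cases h1 : x = i
      · simp [h1, sg_ne_zero]
      · by_cases h2 : x = j
        · simp [h2, hij.symm, sg_ne_zero]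
        · simp [h1, h2]⟩

lemma vec_fst (i j : Fin n) (hij : i ≠ j) (a b : Bool) : (vec i j hij a b).1 i = sg a := by
  simp [vec]

lemma vec_snd (i j : Fin n) (hij : i ≠ j) (a b : Bool) : (vec i j hij a b).1 j = sg b := by
  simp [vec, hij.symm]

end basic

section lower

variable {n m : ℕ}

/-- in a colour class of `K_±(n, 2, -1)` two vectors with opposite signs at `i` agree at the other
coordinate of their common support -/
lemma agree (c : V n 2 → Fin m) (hc : ∀ u v, (K n 2 (-1)).Adj u v → c u ≠ c v) {u v : V n 2}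
    (h : c u = c v) {i j : Fin n} (hij : i ≠ j) (hu : u.1 i ≠ 0) (hv : v.1 i ≠ 0)
    (huv : u.1 i ≠ v.1 i) (hj : v.1 j ≠ 0) : u.1 j = v.1 j := by
  have h1 : ¬ dot u.1 v.1 ≤ -1 := by
    intro hle
    refine hc u v ⟨?_, hle⟩ h
    rintro rfl
    exact huv rfl
  rw [dot_eq u v hij hv hj] at h1
  obtain ⟨a, ha⟩ := eq_sg u hu
  obtain ⟨b, hb⟩ := eq_sg v hv
  obtain ⟨d, hd⟩ := eq_sg v hj
  have h2 : u.1 i * v.1 i = -1 := by
    rw [ha, hb] at huv ⊢
    cases a <;> cases b <;> simp_all [sg]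
  rw [h2] at h1
  rcases u.2.1 j with h3 | h3 | h3 <;> rw [h3] at h1 ⊢ <;> cases d <;> simp_all [sg]

/-- the coordinate `i` has both signs in the colour class `r` -/
def Mixed (c : V n 2 → Fin m) (r : Fin m) (i : Fin n) : Prop :=
  (∃ u, c u = r ∧ u.1 i = 1) ∧ ∃ u, c u = r ∧ u.1 i = -1

lemma mixed_spec (c : V n 2 → Fin m) (hc : ∀ u v, (K n 2 (-1)).Adj u v → c u ≠ c v) {r : Fin m}
    {i : Fin n} (h : Mixed c r i) {v : V n 2} (hv : c v = r) {j : Fin n} (hij : i ≠ j)
    (hi : v.1 i ≠ 0) (hj : v.1 j ≠ 0) {u : V n 2} (hu : c u = r) (hui : u.1 i ≠ 0) :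
    u.1 j = v.1 j := by
  obtain ⟨⟨p, hp, hp1⟩, q, hq, hq1⟩ := h
  have hp0 : p.1 i ≠ 0 := by rw [hp1]; norm_num
  have hq0 : q.1 i ≠ 0 := by rw [hq1]; norm_num
  -- `p` and `q` agree with `v` at `j`
  have hvpq : p.1 j = v.1 j ∧ q.1 j = v.1 j := by
    obtain ⟨a, ha⟩ := eq_sg v hi
    have hpq : ∀ x, i ≠ x → q.1 x ≠ 0 → p.1 x = q.1 x := fun x hx hqx =>
      agree c hc (hp.trans hq.symm) hx hp0 hq0 (by rw [hp1, hq1]; norm_num) hqx
    cases a
    · -- `v i = -1`
      have h1 : p.1 j = v.1 j := agree c hc (hp.trans hv.symm) hij hp0 hi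
        (by rw [hp1, ha]; simp [sg]) hj
      refine ⟨h1, ?_⟩
      have : q.1 j = p.1 j := agree c hc (hq.trans hp.symm) hij hq0 hp0
        (by rw [hp1, hq1]; norm_num) (by rw [h1]; exact hj)
      rw [this, h1]
    · have h1 : q.1 j = v.1 j := agree c hc (hq.trans hv.symm) hij hq0 hi
        (by rw [hq1, ha]; simp [sg]) hj
      refine ⟨?_, h1⟩
      rw [hpq j hij (by rw [h1]; exact hj), h1]
  obtain ⟨b, hb⟩ := eq_sg u hui
  cases b
  · have : u.1 j = p.1 j := agree c hc (hu.trans hp.symm) hij hui hp0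
      (by rw [hb, hp1]; simp [sg]) (by rw [hvpq.1]; exact hj)
    rw [this, hvpq.1]
  · have : u.1 j = q.1 j := agree c hc (hu.trans hq.symm) hij hui hq0
      (by rw [hb, hq1]; simp [sg]) (by rw [hvpq.2]; exact hj)
    rw [this, hvpq.2]

open Classical in
/-- a proper colouring of `K_±(n, 2, -1)` gives a starred array -/
lemma exists_array (c : V n 2 → Fin m) (hc : ∀ u v, (K n 2 (-1)).Adj u v → c u ≠ c v) :
    ∃ (σ : Fin m → Fin n → Option Bool) (π : Fin m → Fin n → Fin n), Cov σ π := by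
  let σ : Fin m → Fin n → Option Bool := fun r i =>
    if Mixed c r i then none else if ∃ u, c u = r ∧ u.1 i = -1 then some false else some true
  let π : Fin m → Fin n → Fin n := fun r i =>
    if h : ∃ j, i ≠ j ∧ ∃ u, c u = r ∧ u.1 i ≠ 0 ∧ u.1 j ≠ 0 then h.choose else i
  -- entries which are not stars
  have hσ : ∀ (v : V n 2) (i : Fin n) (a : Bool), v.1 i = sg a → ¬ Mixed c (c v) i →
      σ (c v) i = some a := by
    intro v i a ha hm
    simp only [σ, if_neg hm]
    cases a
    · rw [if_pos ⟨v, rfl, ha⟩]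
    · rw [if_neg]
      rintro ⟨u, hu, hu1⟩
      exact hm ⟨⟨v, rfl, ha⟩, u, hu, hu1⟩
  -- stars
  have hstar : ∀ (v : V n 2) (i j : Fin n), i ≠ j → v.1 i ≠ 0 → v.1 j ≠ 0 → Mixed c (c v) i →
      σ (c v) i = none ∧ π (c v) i = j ∧ ¬ Mixed c (c v) j := by
    intro v i j hij hi hj hm
    refine ⟨by simp only [σ, if_pos hm], ?_, ?_⟩
    · have hex : ∃ j, i ≠ j ∧ ∃ u, c u = c v ∧ u.1 i ≠ 0 ∧ u.1 j ≠ 0 := ⟨j, hij, v, rfl, hi, hj⟩
      simp only [π, dif_pos hex]
      obtain ⟨h1, u, hu, hui, huj⟩ := hex.choose_spec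
      -- `v` is nonzero at the chosen coordinate
      by_contra hne
      have h2 : v.1 hex.choose = u.1 hex.choose :=
        mixed_spec c hc hm hu h1 hui huj rfl hi
      have h3 := zero_of_supp v hij hi hj h1.symm hne
      rw [h3] at h2
      exact huj h2.symm
    · intro hmj
      obtain ⟨⟨p, hp, hp1⟩, q, hq, hq1⟩ := hm
      have hp0 : p.1 i ≠ 0 := by rw [hp1]; norm_num
      have hq0 : q.1 i ≠ 0 := by rw [hq1]; norm_num
      have hm' : Mixed c (c v) i := ⟨⟨p, hp, hp1⟩, q, hq, hq1⟩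
      have h1 : p.1 j = v.1 j := mixed_spec c hc hm' rfl hij hi hj hp hp0
      have h2 : q.1 j = v.1 j := mixed_spec c hc hm' rfl hij hi hj hq hq0
      have h3 : p.1 i = v.1 i := mixed_spec c hc hmj rfl hij.symm hj hi hp (by rw [h1]; exact hj)
      have h4 : q.1 i = v.1 i := mixed_spec c hc hmj rfl hij.symm hj hi hq (by rw [h2]; exact hj)
      rw [hp1] at h3
      rw [hq1, ← h3] at h4
      norm_num at h4
  refine ⟨σ, π, ?_⟩
  intro i j hij a b
  let v := vec i j hij a b
  have hvi : v.1 i = sg a := vec_fst i j hij a b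
  have hvj : v.1 j = sg b := vec_snd i j hij a b
  have hi : v.1 i ≠ 0 := by rw [hvi]; exact sg_ne_zero a
  have hj : v.1 j ≠ 0 := by rw [hvj]; exact sg_ne_zero b
  refine ⟨c v, ?_⟩
  by_cases h1 : Mixed c (c v) i
  · obtain ⟨h2, h3, h4⟩ := hstar v i j hij hi hj h1
    exact Or.inr (Or.inl ⟨h2, h3, hσ v j b hvj h4⟩)
  · by_cases h2 : Mixed c (c v) j
    · obtain ⟨h3, h4, h5⟩ := hstar v j i hij.symm hj hi h2
      exact Or.inr (Or.inr ⟨h3, h4, hσ v i a hvi h5⟩)
    · exact Or.inl ⟨hσ v i a hvi h1, hσ v j b hvj h2⟩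

/-- the bound for the number of coordinates -/
lemma bound_of_colorable (hm : 2 ≤ m) (h : (K n 2 (-1)).Colorable m) :
    2 * n ≤ m.choose (m / 2) + 4 * m := by
  obtain ⟨C⟩ := h
  obtain ⟨σ, π, hc⟩ := exists_array (m := m) (fun v => C v) (fun u v huv => C.valid huv)
  exact array_bound hc hm

lemma four_pow_big (s : ℕ) (hs : 6 ≤ s) : s * (4 * (2 * s + 1) * (s + 1)) ≤ 4 ^ s := by
  induction s, hs using Nat.le_induction with
  | base => norm_num
  | succ k hk ih =>
    calc (k + 1) * (4 * (2 * (k + 1) + 1) * (k + 1 + 1))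
        ≤ 4 * (k * (4 * (2 * k + 1) * (k + 1))) := by nlinarith [Nat.mul_le_mul hk hk]
      _ ≤ 4 * 4 ^ k := Nat.mul_le_mul_left 4 ih
      _ = 4 ^ (k + 1) := by ring

theorem not_colorable (s : ℕ) (hs : 6 ≤ s) :
    ¬ (K (Nat.centralBinom s) 2 (-1)).Colorable (2 * s + 1) := by
  intro h
  have h1 := bound_of_colorable (by omega) h
  have h2 : (2 * s + 1) / 2 = s := by omega
  rw [h2] at h1
  have h3 : (2 * s + 1) * Nat.centralBinom s = (2 * s + 1).choose s * (s + 1) := by
    rw [← Nat.choose_symm_half s, Nat.centralBinom]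
    exact Nat.add_one_mul_choose_eq (2 * s) s
  have h4 : Nat.centralBinom s ≤ 4 * (2 * s + 1) * (s + 1) := by nlinarith
  have h5 := Nat.four_pow_lt_mul_centralBinom s (by omega)
  have h6 := four_pow_big s hs
  have h7 : s * Nat.centralBinom s ≤ s * (4 * (2 * s + 1) * (s + 1)) := Nat.mul_le_mul_left s h4
  omega

end lower

section upper

/-- the set `A` or its complement, whichever contains `z` -/
def nrml {α : Type} [Fintype α] [DecidableEq α] (z : α) (A : Finset α) : Finset α :=
  if z ∈ A then A else Aᶜ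

variable {s : ℕ}

lemma nrml_mem (z : Fin (2 * s)) (A : Finset (Fin (2 * s))) : z ∈ nrml z A := by
  unfold nrml
  split_ifs with h
  · exact h
  · exact mem_compl.2 h

lemma nrml_card (z : Fin (2 * s)) (A : Finset (Fin (2 * s))) (hA : A.card = s) :
    (nrml z A).card = s := by
  unfold nrml
  split_ifs with h
  · exact hA
  · rw [card_compl, Fintype.card_fin, hA]; omega

lemma nrml_eq (z : Fin (2 * s)) {A B : Finset (Fin (2 * s))} (h : nrml z A = nrml z B) :
    B = A ∨ B = Aᶜ := by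
  unfold nrml at h
  split_ifs at h with h1 h2 h2
  · exact Or.inl h.symm
  · right; rw [h, compl_compl]
  · exact Or.inr h.symm
  · left; exact (compl_injective h).symm

/-- all the patterns occur for two different sets of size `s` containing `z` -/
lemma pattern (z : Fin (2 * s)) {A B : Finset (Fin (2 * s))} (hA : z ∈ A) (hB : z ∈ B)
    (hAc : A.card = s) (hBc : B.card = s) (hne : A ≠ B) (a b : Bool) :
    ∃ r, decide (r ∈ A) = a ∧ decide (r ∈ B) = b := by
  cases a <;> cases b
  · by_contra hcon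
    push Not at hcon
    have h1 : (univ : Finset (Fin (2 * s))) ⊆ A ∪ B := by
      intro r _
      by_cases hr : r ∈ A
      · exact mem_union_left _ hr
      · have := hcon r (by simpa using hr)
        exact mem_union_right _ (by simpa using this)
    have h2 := card_le_card h1
    have h3 := card_union_add_card_inter A B
    have h4 : 1 ≤ (A ∩ B).card := card_pos.2 ⟨z, mem_inter.2 ⟨hA, hB⟩⟩
    rw [card_univ, Fintype.card_fin] at h2
    omega
  · by_contra hcon
    push Not at hcon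
    have h1 : B ⊆ A := by
      intro r hr
      by_contra hr'
      exact hcon r (by simpa using hr') (by simpa using hr)
    exact hne (eq_of_subset_of_card_le h1 (by omega)).symm
  · by_contra hcon
    push Not at hcon
    have h1 : A ⊆ B := by
      intro r hr
      by_contra hr'
      exact hcon r (by simpa using hr) (by simpa using hr')
    exact hne (eq_of_subset_of_card_le h1 (by omega))
  · exact ⟨z, by simpa using hA, by simpa using hB⟩

open Classical in
theorem colorable (s : ℕ) (hs : 1 ≤ s) :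
    (J (Nat.centralBinom s) 2 (-1)).Colorable (2 * s + 1) := by
  -- the coordinates are the subsets of size `s`
  have hcard : Fintype.card {A : Finset (Fin (2 * s)) // A.card = s} = Nat.centralBinom s := by
    rw [Nat.centralBinom, Fintype.card_finset_len, Fintype.card_fin]
  let e : Fin (Nat.centralBinom s) ≃ {A : Finset (Fin (2 * s)) // A.card = s} :=
    (Fintype.equivFinOfCardEq hcard).symm
  let z : Fin (2 * s) := ⟨0, by omega⟩
  let S : Fin (Nat.centralBinom s) → Finset (Fin (2 * s)) := fun i => nrml z (e i).1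
  let τ : Fin (2 * s) → Fin (Nat.centralBinom s) → Bool := fun r i => decide (r ∈ S i)
  let P : V (Nat.centralBinom s) 2 → Fin (2 * s) → Prop := fun v r =>
    ∀ i, v.1 i ≠ 0 → v.1 i = sg (τ r i)
  let col : V (Nat.centralBinom s) 2 → Fin (2 * s + 1) := fun v =>
    if h : ∃ r, P v r then h.choose.castSucc else Fin.last _
  -- vectors which get the last colour
  have hlast : ∀ v, (¬ ∃ r, P v r) → ∀ i j, i ≠ j → v.1 i ≠ 0 → v.1 j ≠ 0 →
      (e j).1 = (e i).1ᶜ := by
    intro v hv i j hij hi hj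
    have hS : S i = S j := by
      by_contra hne
      apply hv
      obtain ⟨a, ha⟩ := eq_sg v hi
      obtain ⟨b, hb⟩ := eq_sg v hj
      obtain ⟨r, h1, h2⟩ := pattern z (nrml_mem z (e i).1) (nrml_mem z (e j).1)
        (nrml_card z _ (e i).2) (nrml_card z _ (e j).2) hne a b
      refine ⟨r, ?_⟩
      intro x hx
      by_cases hxi : x = i
      · rw [hxi, ha]; simp only [τ]; rw [show decide (r ∈ S i) = a from h1]
      · by_cases hxj : x = j
        · rw [hxj, hb]; simp only [τ]; rw [show decide (r ∈ S j) = b from h2]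
        · exact absurd (zero_of_supp v hij hi hj hxi hxj) hx
    rcases nrml_eq z hS with h | h
    · exact absurd (e.injective (Subtype.ext h)).symm hij
    · exact h
  refine ⟨SimpleGraph.Coloring.mk col ?_⟩
  rintro u v ⟨-, hd⟩ hcol
  by_cases hu : ∃ r, P u r
  · by_cases hv : ∃ r, P v r
    · simp only [col, dif_pos hu, dif_pos hv] at hcol
      have hr := Fin.castSucc_injective _ hcol
      have h1 := hu.choose_spec
      have h2 := hv.choose_spec
      rw [← hr] at h2
      have : 0 ≤ dot u.1 v.1 := by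
        unfold dot
        apply sum_nonneg
        intro x _
        by_cases hx : u.1 x = 0
        · rw [hx, zero_mul]
        · by_cases hy : v.1 x = 0
          · rw [hy, mul_zero]
          · rw [h1 x hx, h2 x hy]; exact mul_self_nonneg _
      omega
    · simp only [col, dif_pos hu, dif_neg hv] at hcol
      exact absurd hcol (Fin.castSucc_lt_last _).ne
  · by_cases hv : ∃ r, P v r
    · simp only [col, dif_neg hu, dif_pos hv] at hcol
      exact absurd hcol.symm (Fin.castSucc_lt_last _).ne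
    · -- both supports are pairs of complementary sets
      obtain ⟨i, j, hij, hi, hj, h0⟩ := exists_supp v
      have hvij := hlast v hv i j hij hi hj
      rw [dot_eq u v hij hi hj] at hd
      by_cases hui : u.1 i = 0
      · by_cases huj : u.1 j = 0
        · rw [hui, huj] at hd; norm_num at hd
        · obtain ⟨x, hx, hx0⟩ := exists_other u huj
          have h3 := hlast u hu j x hx huj hx0
          rw [hvij, compl_compl] at h3
          have : x = i := e.injective (Subtype.ext h3)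
          exact hx0 (this ▸ hui)
      · have huj : u.1 j ≠ 0 := by
          obtain ⟨x, hx, hx0⟩ := exists_other u hui
          have h3 := hlast u hu i x hx hui hx0
          rw [← hvij] at h3
          have : x = j := e.injective (Subtype.ext h3)
          exact this ▸ hx0
        obtain ⟨a, ha⟩ := eq_sg u hui
        obtain ⟨b, hb⟩ := eq_sg u huj
        obtain ⟨a', ha'⟩ := eq_sg v hi
        obtain ⟨b', hb'⟩ := eq_sg v hj
        rw [ha, hb, ha', hb'] at hd
        cases a <;> cases b <;> cases a' <;> cases b' <;> simp [sg] at hd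

end upper

/-- **Theorem.** For `n = C(2s, s)` and `s ≥ 6` the graph `J_±(n, 2, -1)` is `(2s+1)`-colourable
and `K_±(n, 2, -1)` is not. Hence the statement of the problem is false (`k = 2`, `t = -1`). -/
theorem result :
    (∀ s : ℕ, 6 ≤ s → (J (Nat.centralBinom s) 2 (-1)).Colorable (2 * s + 1) ∧
      ¬ (K (Nat.centralBinom s) 2 (-1)).Colorable (2 * s + 1)) ∧
    (∀ n₀ : ℕ, ∃ n, n₀ ≤ n ∧
      (J n 2 (-1)).chromaticNumber < (K n 2 (-1)).chromaticNumber) ∧
    ¬ ∀ (k : ℕ) (t : ℤ), 1 ≤ k → -(k : ℤ) ≤ t → t < 0 → ∃ n₀ : ℕ, ∀ n : ℕ, n₀ ≤ n →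
      (J n k t).chromaticNumber = (K n k t).chromaticNumber := by
  have h1 : ∀ s : ℕ, 6 ≤ s → (J (Nat.centralBinom s) 2 (-1)).Colorable (2 * s + 1) ∧
      ¬ (K (Nat.centralBinom s) 2 (-1)).Colorable (2 * s + 1) := fun s hs =>
    ⟨colorable s (by omega), not_colorable s hs⟩
  have h2 : ∀ n₀ : ℕ, ∃ n, n₀ ≤ n ∧
      (J n 2 (-1)).chromaticNumber < (K n 2 (-1)).chromaticNumber := by
    intro n₀
    refine ⟨Nat.centralBinom (n₀ + 6), ?_, ?_⟩
    · have h3 := Nat.four_pow_lt_mul_centralBinom (n₀ + 6) (by omega)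
      have h4 := four_pow_big (n₀ + 6) (by omega)
      have h5 : 4 * (2 * (n₀ + 6) + 1) * (n₀ + 6 + 1) < Nat.centralBinom (n₀ + 6) :=
        Nat.lt_of_mul_lt_mul_left (lt_of_le_of_lt h4 h3)
      nlinarith
    · obtain ⟨h3, h4⟩ := h1 (n₀ + 6) (by omega)
      refine lt_of_le_of_lt h3.chromaticNumber_le ?_
      by_contra hcon
      exact h4 (SimpleGraph.chromaticNumber_le_iff_colorable.1 (not_lt.1 hcon))
  refine ⟨h1, h2, ?_⟩
  intro h
  obtain ⟨n₀, hn₀⟩ := h 2 (-1) (by norm_num) (by norm_num) (by norm_num)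
  obtain ⟨n, hn, hlt⟩ := h2 n₀
  exact hlt.ne (hn₀ n hn)

end Pool.Agent.Results.MP_6c9e22_co.Doubling
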